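import Pool.Agent.ABC3.Stmts

set_option autoImplicit false

namespace Pool.Agent.ABC3.H79

open Matrix Polynomial Pool.Agent.ABC3

section
variable {K Q B : Type} [Field K] [AddCommGroup Q] [Module K Q] [Fintype B] [DecidableEq B]

/-- The algebra of endomorphisms of degree 0. -/
def EndA (S : Sys K Q B) : Subalgebra K (Matrix B B K) where
  carrier := {f | HasDeg S.deg 0 f ∧ Com S ⊤ f}
  mul_mem' := by
    rintro f g ⟨hf, hf'⟩ ⟨hg, hg'⟩
    refine ⟨?_, ?_⟩
    · intro s s' h
      rw [Matrix.mul_apply] at h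
      obtain ⟨j, _, hj⟩ := Finset.exists_ne_zero_of_sum_ne_zero h
      have h1 := hf s j (left_ne_zero_of_mul hj)
      have h2 := hg j s' (right_ne_zero_of_mul hj)
      omega
    · intro p hp
      rw [← mul_assoc, hf' p hp, mul_assoc, hg' p hp, mul_assoc]
  add_mem' := by
    rintro f g ⟨hf, hf'⟩ ⟨hg, hg'⟩
    refine ⟨?_, ?_⟩
    · intro s s' h
      by_cases h1 : f s s' = 0
      · by_cases h2 : g s s' = 0
        · exact absurd (by simp [h1, h2]) h
        · exact hg s s' h2
      · exact hf s s' h1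
    · intro p hp
      rw [mul_add, add_mul, hf' p hp, hg' p hp]
  algebraMap_mem' := by
    intro r
    refine ⟨?_, ?_⟩
    · intro s s' h
      rw [Matrix.algebraMap_matrix_apply] at h
      by_cases hs : s = s'
      · simp [hs]
      · simp [hs] at h
    · intro p hp
      exact (Algebra.commutes r (S.act p)).symm

theorem mem_EndA (S : Sys K Q B) (f : Matrix B B K) :
    f ∈ EndA S ↔ HasDeg S.deg 0 f ∧ Com S ⊤ f := Iff.rfl

/-- The normalized trace. -/
theorem chi_pow (S : Sys K Q B) (h : Chi S) (u g : Matrix B B K) (hu : u ∈ EndA S) (hg : g ∈ EndA S)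
    (htu : Matrix.trace u ≠ 0) : ∀ k : ℕ, Matrix.trace (u ^ k * g) = 0 → Matrix.trace g = 0 := by
  intro k
  induction k with
  | zero => intro h0; simpa using h0
  | succ k ih =>
    intro h0
    apply ih
    have h1 := h.2 u (u ^ k * g) hu.1 hu.2 ((EndA S).mul_mem ((EndA S).pow_mem hu k) hg).1
      ((EndA S).mul_mem ((EndA S).pow_mem hu k) hg).2
    rw [← mul_assoc, ← pow_succ', h0, zero_mul] at h1
    exact (mul_eq_zero.mp h1.symm).resolve_left htu

end

theorem cpx : CPXStmt := by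
  intro K Q B _ _ _ _ _ S hchi
  obtain ⟨ht1, hmul⟩ := hchi
  have hchi : Chi S := ⟨ht1, hmul⟩
  obtain ⟨e, he, hmin⟩ := WellFounded.has_min (measure (fun (e : Matrix B B K) => e.rank)).wf
    {e | e * e = e ∧ e ∈ EndA S ∧ Matrix.trace e ≠ 0}
    ⟨1, by rw [one_mul], (EndA S).one_mem, ht1⟩
  obtain ⟨hee, heE, het⟩ := he
  refine ⟨e, hee, heE.1, heE.2, het, ?_⟩
  intro f hf hf' hft
  have hfE : f ∈ EndA S := ⟨hf, hf'⟩
  have hefE : e * f ∈ EndA S := (EndA S).mul_mem heE hfE
  have huE : e * f * e ∈ EndA S := (EndA S).mul_mem hefE heE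
  have hef : Matrix.trace (e * f) ≠ 0 := by
    intro h0
    have := hmul e f heE.1 heE.2 hf hf'
    rw [h0, zero_mul] at this
    exact (mul_ne_zero het hft) this.symm
  have hut : Matrix.trace (e * f * e) ≠ 0 := by
    intro h0
    have := hmul (e * f) e hefE.1 hefE.2 heE.1 heE.2
    rw [h0, zero_mul] at this
    exact (mul_ne_zero hef het) this.symm
  obtain ⟨u, hu⟩ : ∃ u, u = e * f * e := ⟨_, rfl⟩
  rw [← hu] at huE hut
  have heu : e * u = u := by rw [hu, ← mul_assoc, ← mul_assoc, hee]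
  have hue : u * e = u := by rw [hu, mul_assoc, hee]
  -- Fitting
  have hint : IsIntegral K u := IsIntegral.of_finite K u
  have hm0 : minpoly K u ≠ 0 := minpoly.ne_zero hint
  obtain ⟨g, hg, hgd⟩ := Polynomial.exists_eq_pow_rootMultiplicity_mul_and_not_dvd (minpoly K u) hm0 0
  obtain ⟨k, hk⟩ : ∃ k, k = (minpoly K u).rootMultiplicity 0 := ⟨_, rfl⟩
  rw [← hk] at hg
  rw [map_zero, sub_zero] at hg hgd
  have hcop : IsCoprime (X ^ (k + 1) : K[X]) g := by
    apply IsCoprime.pow_left
    exact (Polynomial.irreducible_X.coprime_iff_not_dvd).mpr hgd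
  obtain ⟨a, b, hab⟩ := hcop
  obtain ⟨p, hp⟩ : ∃ p, p = aeval u (a * X ^ (k + 1)) := ⟨_, rfl⟩
  have h1p : 1 - p = aeval u (b * g) := by
    rw [hp, ← map_one (aeval u : K[X] →ₐ[K] Matrix B B K), ← map_sub, ← hab]
    congr 1
    ring
  have hzero : aeval u (X ^ (k + 1) * g) = 0 := by
    have : (X ^ (k + 1) * g : K[X]) = X * minpoly K u := by
      rw [hg]; ring
    rw [this, map_mul, minpoly.aeval, mul_zero]
  have hpp : p * (1 - p) = 0 := by
    rw [h1p, hp, ← map_mul]
    have : (a * X ^ (k + 1) * (b * g) : K[X]) = a * b * (X ^ (k + 1) * g) := by ring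
    rw [this, map_mul, hzero, mul_zero]
  have hpp' : p * p = p := by
    rw [mul_sub, mul_one] at hpp
    exact (sub_eq_zero.mp hpp).symm
  obtain ⟨w, hw⟩ : ∃ w, w = aeval u (a * X ^ k) := ⟨_, rfl⟩
  have hpw : p = u * w := by
    have : (a * X ^ (k + 1) : K[X]) = X * (a * X ^ k) := by ring
    rw [hp, this, map_mul, aeval_X, hw]
  have hpw' : p = w * u := by
    have : (a * X ^ (k + 1) : K[X]) = (a * X ^ k) * X := by ring
    rw [hp, this, map_mul, aeval_X, hw]
  have hwE : w ∈ EndA S := by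
    rw [hw]
    exact (Algebra.adjoin_le (Set.singleton_subset_iff.mpr huE)) (Polynomial.aeval_mem_adjoin_singleton K u)
  have hpE : p ∈ EndA S := by
    rw [hpw]; exact (EndA S).mul_mem huE hwE
  have hup : u ^ (k + 1) * (1 - p) = 0 := by
    rw [h1p]
    have : u ^ (k + 1) = aeval u (X ^ (k + 1) : K[X]) := by rw [map_pow, aeval_X]
    rw [this, ← map_mul]
    have h2 : (X ^ (k + 1) * (b * g) : K[X]) = b * (X ^ (k + 1) * g) := by ring
    rw [h2, map_mul, hzero, mul_zero]
  have htp : Matrix.trace p ≠ 0 := by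
    intro h0
    have h3 := chi_pow S hchi u (1 - p) huE ((EndA S).sub_mem (EndA S).one_mem hpE) hut (k + 1)
      (by rw [hup]; exact Matrix.trace_zero _ _)
    rw [Matrix.trace_sub, h0, sub_zero] at h3
    exact ht1 h3
  have hep : e * p = p := by rw [hpw, ← mul_assoc, heu]
  have hpe : p * e = p := by rw [hpw', mul_assoc, hue]
  have hrank : e.rank ≤ p.rank := by
    by_contra hlt
    rw [not_le] at hlt
    exact hmin p ⟨hpp', hpE, htp⟩ hlt
  have hrange : LinearMap.range p.mulVecLin = LinearMap.range e.mulVecLin := by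
    apply Submodule.eq_of_le_of_finrank_le
    · rintro x ⟨y, rfl⟩
      refine ⟨p.mulVec y, ?_⟩
      rw [Matrix.mulVecLin_apply, Matrix.mulVecLin_apply, Matrix.mulVec_mulVec, hep]
    · exact hrank
  have hpe2 : p * e = e := by
    apply Matrix.toLin'.injective
    apply LinearMap.ext
    intro v
    rw [Matrix.toLin'_apply, Matrix.toLin'_apply, ← Matrix.mulVec_mulVec]
    have hmem : e.mulVec v ∈ LinearMap.range p.mulVecLin := by
      rw [hrange]; exact ⟨v, by rw [Matrix.mulVecLin_apply]⟩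
    obtain ⟨y, hy⟩ := hmem
    rw [Matrix.mulVecLin_apply] at hy
    rw [← hy, Matrix.mulVec_mulVec, hpp']
  have hpe3 : p = e := by rw [← hpe, hpe2]
  refine ⟨e, e * w, heE, (EndA S).mul_mem heE hwE, ?_⟩
  rw [← mul_assoc, ← hu, ← hpw, hpe3]

end Pool.Agent.ABC3.H79
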